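import Pool.Agent.Helper22.G4.Base
import Pool.Agent.Helper22.G4.GenFam
import Pool.Agent.Helper22.G4.St.C0
import Pool.Agent.Helper22.G4.St.S1
import Pool.Agent.Helper22.G4.St.S2
import Pool.Agent.Helper22.G4.St.C1
import Pool.Agent.Helper22.G4.St.C5

/-! # G4-S6: the quadrangles with page `0` -/

namespace Pool.Agent.Helper85.G4

open Submodule
open Pool.Agent.Helper22.G4

theorem u_inj {a i j a' i' j' : ℕ} (h : Vx.u a i j = Vx.u a' i' j') : a = a' ∧ i = i' ∧ j = j' := by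
  simpa [Vx.u, Prod.ext_iff] using h

theorem u_ne_b1 (a i j : ℕ) : Vx.u a i j ≠ Vx.b1 := by simp [Vx.u, Vx.b1]

theorem u_ne_b2 (a i j : ℕ) : Vx.u a i j ≠ Vx.b2 := by simp [Vx.u, Vx.b2]

/-- what is needed about the page of a quadrangle -/
theorem squad_page {I : NF} (hI : I.OK) {d : OpD} (hd : d ∈ I.opds) {a i s j : ℕ}
    (hs : OpD.squad I.M I.N a i s j ∈ OpD.flats I.M I.N d) :
    a ≠ 0 ∧ 4 ≤ s ∧ s + 2 ≤ I.N ∧ ∃ R ∈ I.data.flats, Vx.b1 ∈ R.1 ∧ Vx.b2 ∈ R.1 ∧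
      Vx.u a i s ∈ R.1 ∧ Vx.u a s j ∈ R.1 := by
  have hok := NF.opd_ok hI hd
  have key : (a = d.pa ∧ i = 0 ∧ s = d.z ∧ j = d.x) ∨ (a = d.pb ∧ i = 0 ∧ s = d.y ∧ j = d.i) ∨
      (a = d.pb ∧ i = d.y ∧ s = d.i ∧ j = d.x) ∨ (a = d.pb ∧ i = d.i ∧ s = d.x ∧ j = I.N) ∨
      (a = d.pc ∧ i = d.y ∧ s = d.v ∧ j = I.N) ∨ (a = d.pd ∧ i = 0 ∧ s = d.w ∧ j = I.N) := by
    have hne1 : ∀ a i j (l : List Vx) (l' : List Vx) , Vx.u a i j :: l ≠ Vx.b1 :: l' := by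
      intro a i j l l' h
      exact u_ne_b1 _ _ _ (List.cons.inj h).1
    have hne2 : ∀ a i j (l : List Vx) (l' : List Vx) , Vx.u a i j :: l ≠ Vx.b2 :: l' := by
      intro a i j l l' h
      exact u_ne_b2 _ _ _ (List.cons.inj h).1
    have hnep : ∀ a i j g (l : List Vx) (l' : List Vx) , Vx.u a i j :: l ≠ Vx.p g :: l' := by
      intro a i j g l l' h
      have := (List.cons.inj h).1
      simp [Vx.u, Vx.p] at this
    have hneq : ∀ a i j g (l : List Vx) (l' : List Vx) , Vx.u a i j :: l ≠ Vx.q g :: l' := by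
      intro a i j g l l' h
      have := (List.cons.inj h).1
      simp [Vx.u, Vx.q] at this
    have hsq : ∀ a' i' s' j', OpD.squad I.M I.N a i s j = OpD.squad I.M I.N a' i' s' j' →
        a = a' ∧ i = i' ∧ s = s' ∧ j = j' := by
      intro a' i' s' j' h
      have h0 : (OpD.squad I.M I.N a i s j).1 = (OpD.squad I.M I.N a' i' s' j').1 := by rw [h]
      simp only [OpD.squad] at h0
      injection h0 with h0 h1
      injection h1 with h1 h2
      injection h2 with h2 h3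
      obtain ⟨e1, e2, e3⟩ := u_inj h1
      obtain ⟨f1, f2, f3⟩ := u_inj h2
      exact ⟨e1, e2, e3, f3⟩
    simp only [OpD.flats, List.mem_cons, List.not_mem_nil, or_false] at hs
    rcases hs with hs | hs | hs | hs | hs | hs | hs | hs | hs | hs | hs | hs | hs | hs | hs | hs | hs
    · exact absurd (congrArg Prod.fst hs) (hne1 _ _ _ _ _)
    · exact absurd (congrArg Prod.fst hs) (hne2 _ _ _ _ _)
    · exact absurd (congrArg Prod.fst hs) (hne1 _ _ _ _ _)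
    · exact absurd (congrArg Prod.fst hs) (hne2 _ _ _ _ _)
    · exact Or.inl (hsq _ _ _ _ hs)
    · exact Or.inr (Or.inl (hsq _ _ _ _ hs))
    · exact Or.inr (Or.inr (Or.inl (hsq _ _ _ _ hs)))
    · exact Or.inr (Or.inr (Or.inr (Or.inl (hsq _ _ _ _ hs))))
    · exact Or.inr (Or.inr (Or.inr (Or.inr (Or.inl (hsq _ _ _ _ hs)))))
    · exact Or.inr (Or.inr (Or.inr (Or.inr (Or.inr (hsq _ _ _ _ hs)))))
    · exact absurd (congrArg Prod.fst hs) (hneq _ _ _ _ _ _)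
    · exact absurd (congrArg Prod.fst hs) (hnep _ _ _ _ _ _)
    · exact absurd (congrArg Prod.fst hs) (hneq _ _ _ _ _ _)
    · exact absurd (congrArg Prod.fst hs) (hnep _ _ _ _ _ _)
    · exact absurd (congrArg Prod.fst hs) (hnep _ _ _ _ _ _)
    · exact absurd (congrArg Prod.fst hs) (hnep _ _ _ _ _ _)
    · exact absurd (congrArg Prod.fst hs) (hneq _ _ _ _ _ _)
  have hfl : ∀ R ∈ OpD.flats I.M I.N d, R ∈ I.data.flats := fun R hR =>
    NF.mem_flats.2 (Or.inr ⟨d, hd, hR⟩)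
  have hpa : ([Vx.b1, Vx.u d.pa d.x I.N, Vx.u d.pa d.z d.x, Vx.u d.pa 0 d.z, Vx.b2],
      Fc.Q I.N (d.pa - 1) d.pa, Fc.GY I.N d.pa d.g0) ∈ I.data.flats :=
    hfl _ (by simp [OpD.flats])
  have hpb : ([Vx.b2, Vx.u d.pb 0 d.y, Vx.u d.pb d.y d.i, Vx.u d.pb d.i d.x, Vx.u d.pb d.x I.N,
      Vx.b1], Fc.GX I.N d.pb d.g0, Fc.GX I.N d.pb d.g1) ∈ I.data.flats :=
    hfl _ (by simp [OpD.flats])
  have hpc : ([Vx.b1, Vx.u d.pc d.v I.N, Vx.u d.pc d.y d.v, Vx.u d.pc 0 d.y, Vx.b2],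
      Fc.GY I.N d.pc d.g1, Fc.GX I.N d.pc d.g2) ∈ I.data.flats :=
    hfl _ (by simp [OpD.flats])
  have hpd : ([Vx.b2, Vx.u d.pd 0 d.w, Vx.u d.pd d.w I.N, Vx.b1],
      Fc.GY I.N d.pd d.g2, Fc.Q I.N d.pd (d.nxt I.M)) ∈ I.data.flats :=
    hfl _ (by simp [OpD.flats])
  rcases key with ⟨rfl, rfl, rfl, rfl⟩ | ⟨rfl, rfl, rfl, rfl⟩ | ⟨rfl, rfl, rfl, rfl⟩ |
    ⟨rfl, rfl, rfl, rfl⟩ | ⟨rfl, rfl, rfl, rfl⟩ | ⟨rfl, rfl, rfl, rfl⟩
  · exact ⟨by unfold OpD.pa; omega, by omega, by omega, _, hpa, by simp, by simp, by simp,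
      by simp⟩
  · exact ⟨by unfold OpD.pb; omega, by omega, by omega, _, hpb, by simp, by simp, by simp,
      by simp⟩
  · exact ⟨by unfold OpD.pb; omega, by omega, by omega, _, hpb, by simp, by simp, by simp,
      by simp⟩
  · exact ⟨by unfold OpD.pb; omega, by omega, by omega, _, hpb, by simp, by simp, by simp,
      by simp⟩
  · exact ⟨by unfold OpD.pc; omega, by omega, by omega, _, hpc, by simp, by simp, by simp,
      by simp⟩
  · exact ⟨by unfold OpD.pd; omega, by omega, by omega, _, hpd, by simp, by simp, by simp,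
      by simp⟩

/-- different vertices have different normalised vectors -/
theorem normalised_ne {V : Type*} {c : V → E5} {A : Finset V} (hc : Conf c A) {u v : V}
    (hu : u ∈ A) (hv : v ∈ A) (huv : u ≠ v) {x y : ℝ} (hx : x ≠ 0) :
    x • c u ≠ y • c v := by
  intro h
  have hli := conf_pair hc hu hv huv
  rw [LinearIndependent.pair_iff] at hli
  have := hli x (-y) (by rw [h, neg_smul, add_neg_cancel])
  exact hx this.1

/-- G4-S6 (the quadrangles with page `0`). -/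
theorem snd_squad {I : NF} (hI : I.OK) {c : Vx → E5} (hM : I.data.Model c) {τ : E5 →ₗ[ℝ] ℝ}
    (h1 : τ (c Vx.b1) = 0) (h2 : τ (c Vx.b2) = 0)
    (hp : ∀ v ∈ I.data.verts, v ≠ Vx.b1 → v ≠ Vx.b2 → 0 < τ (c v)) {d : OpD} (hd : d ∈ I.opds)
    {a i s j : ℕ} (hs : OpD.squad I.M I.N a i s j ∈ OpD.flats I.M I.N d) :
    ∃ r : ℝ, r ≠ 0 ∧
      (τ (c (Vx.u a s j)))⁻¹ • c (Vx.u a s j) - (τ (c (Vx.u a i s)))⁻¹ • c (Vx.u a i s) =
        r • ((τ (c (Vx.u 0 s (s + 1))))⁻¹ • c (Vx.u 0 s (s + 1)) -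
          (τ (c (Vx.u 0 (s - 1) s)))⁻¹ • c (Vx.u 0 (s - 1) s)) := by
  obtain ⟨ha, hs4, hsN, R, hR, hb1R, hb2R, huR, hvR⟩ := squad_page hI hd hs
  have hsf : OpD.squad I.M I.N a i s j ∈ I.data.flats := NF.mem_flats.2 (Or.inr ⟨d, hd, hs⟩)
  have hp0 : I.page0 ∈ I.data.flats := NF.mem_flats.2 (Or.inl rfl)
  obtain ⟨-, -, hsv, -, -, -⟩ := NF.flat_basic hI _ hsf
  obtain ⟨-, hpnd, hpv, -, -, -⟩ := NF.flat_basic hI _ hp0
  -- the four vertices
  have m1 : Vx.u 0 (s - 1) s ∈ I.data.verts := hsv _ (by simp [OpD.squad])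
  have m2 : Vx.u a i s ∈ I.data.verts := hsv _ (by simp [OpD.squad])
  have m3 : Vx.u a s j ∈ I.data.verts := hsv _ (by simp [OpD.squad])
  have m4 : Vx.u 0 s (s + 1) ∈ I.data.verts := hsv _ (by simp [OpD.squad])
  have t1 : 0 < τ (c (Vx.u 0 (s - 1) s)) := hp _ m1 (u_ne_b1 _ _ _) (u_ne_b2 _ _ _)
  have t2 : 0 < τ (c (Vx.u a i s)) := hp _ m2 (u_ne_b1 _ _ _) (u_ne_b2 _ _ _)
  have t3 : 0 < τ (c (Vx.u a s j)) := hp _ m3 (u_ne_b1 _ _ _) (u_ne_b2 _ _ _)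
  have t4 : 0 < τ (c (Vx.u 0 s (s + 1))) := hp _ m4 (u_ne_b1 _ _ _) (u_ne_b2 _ _ _)
  -- page 0
  have q1 : Vx.u 0 (s - 1) s ∈ I.page0.1 := by
    simp only [NF.page0, List.mem_append, List.mem_map, List.mem_range]
    refine Or.inl ⟨s - 2, by omega, ?_⟩
    rw [show s - 2 + 1 = s - 1 by omega, show s - 2 + 2 = s by omega]
  have q4 : Vx.u 0 s (s + 1) ∈ I.page0.1 := by
    simp only [NF.page0, List.mem_append, List.mem_map, List.mem_range]
    refine Or.inl ⟨s - 1, by omega, ?_⟩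
    rw [show s - 1 + 1 = s by omega, show s - 1 + 2 = s + 1 by omega]
  have qb1 : Vx.b1 ∈ I.page0.1 := by simp [NF.page0]
  have qb2 : Vx.b2 ∈ I.page0.1 := by simp [NF.page0]
  have q2 : Vx.u a i s ∉ I.page0.1 := by
    simp only [NF.page0, List.mem_append, List.mem_map, List.mem_range, List.mem_cons,
      List.not_mem_nil, or_false]
    rintro (⟨k, -, hk⟩ | h | h | h)
    · exact ha (u_inj hk).1.symm
    · exact u_ne_b1 _ _ _ h
    · exact u_ne_b2 _ _ _ h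
    · exact ha (u_inj h).1
  -- independence
  have hb : LinearIndependent ℝ ![c Vx.b1, c Vx.b2] :=
    conf_pair hM.conf (List.mem_toFinset.2 NF.b_mem.1) (List.mem_toFinset.2 NF.b_mem.2)
      (by simp [Vx.b1, Vx.b2])
  have n14 : Vx.u 0 (s - 1) s ≠ Vx.u 0 s (s + 1) := by
    intro h
    have := (u_inj h).2.1
    omega
  have n23 : Vx.u a i s ≠ Vx.u a s j := by
    intro h
    obtain ⟨-, e1, e2⟩ := u_inj h
    have hlt := NF.pu_lt hI m2
    omega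
  have hx := snd_page hI hM h1 h2 hp hp0 qb1 qb2 q4 q1 (u_ne_b1 _ _ _) (u_ne_b2 _ _ _)
    (u_ne_b1 _ _ _) (u_ne_b2 _ _ _)
  have hy := snd_page hI hM h1 h2 hp hR hb1R hb2R hvR huR (u_ne_b1 _ _ _) (u_ne_b2 _ _ _)
    (u_ne_b1 _ _ _) (u_ne_b2 _ _ _)
  -- the functional of page 0
  obtain ⟨-, f, -, hf⟩ := hM.flat _ hp0
  have hf' : ∀ w ∈ I.data.verts, (f (c w) = 0 ↔ w ∈ I.page0.1) := fun w hw =>
    hf w (List.mem_toFinset.2 hw)
  -- rank
  have hrk := hM.rank _ hsf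
  have hspan : Module.finrank ℝ (span ℝ ({(τ (c (Vx.u 0 (s - 1) s)))⁻¹ • c (Vx.u 0 (s - 1) s),
      (τ (c (Vx.u 0 s (s + 1))))⁻¹ • c (Vx.u 0 s (s + 1)),
      (τ (c (Vx.u a i s)))⁻¹ • c (Vx.u a i s),
      (τ (c (Vx.u a s j)))⁻¹ • c (Vx.u a s j)} : Set E5)) ≤ 3 := by
    rw [← hrk]
    refine Submodule.finrank_mono ?_
    rw [Submodule.span_le]
    have hmem : ∀ v ∈ (OpD.squad I.M I.N a i s j).1, ∀ r : ℝ, r • c v ∈
        span ℝ (c '' {a_1 | a_1 ∈ (OpD.squad I.M I.N a i s j).1}) := fun v hv r =>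
      Submodule.smul_mem _ _ (Submodule.subset_span ⟨v, hv, rfl⟩)
    intro w hw
    simp only [Set.mem_insert_iff, Set.mem_singleton_iff] at hw
    rcases hw with rfl | rfl | rfl | rfl
    · exact hmem _ (by simp [OpD.squad]) _
    · exact hmem _ (by simp [OpD.squad]) _
    · exact hmem _ (by simp [OpD.squad]) _
    · exact hmem _ (by simp [OpD.squad]) _
  refine quad_parallel (τ := τ) (f := f) hb h1 h2 ?_ ?_ ?_ ?_ hx hy ?_ ?_ ?_ ?_ ?_ ?_ hspan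
  · rw [map_smul, smul_eq_mul, inv_mul_cancel₀ t1.ne']
  · rw [map_smul, smul_eq_mul, inv_mul_cancel₀ t4.ne']
  · rw [map_smul, smul_eq_mul, inv_mul_cancel₀ t2.ne']
  · rw [map_smul, smul_eq_mul, inv_mul_cancel₀ t3.ne']
  · exact normalised_ne hM.conf (List.mem_toFinset.2 m1) (List.mem_toFinset.2 m4) n14
      (inv_ne_zero t1.ne')
  · exact normalised_ne hM.conf (List.mem_toFinset.2 m2) (List.mem_toFinset.2 m3) n23
      (inv_ne_zero t2.ne')
  · exact (hf' _ NF.b_mem.1).2 qb1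
  · exact (hf' _ NF.b_mem.2).2 qb2
  · rw [map_smul, (hf' _ m1).2 q1, smul_zero]
  · rw [map_smul, smul_eq_mul]
    exact mul_ne_zero (inv_ne_zero t2.ne') (fun h => q2 ((hf' _ m2).1 h))

end Pool.Agent.Helper85.G4
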